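import Pool.Agent.Lib.MP_cff830_lc.AC0.Model
import Pool.Agent.Lib.MP_cff830_lc.AC0.Main
import Pool.Agent.Lib.MP_cff830_lc.AC0.Base
import Pool.Agent.Lib.MP_cff830_lc.AC0.Rep
import Pool.Agent.Lib.MP_cff830_lc.AC0.Gauge
import Pool.Agent.Lib.MP_cff830_lc.AC0.Count
import Pool.Agent.Lib.MP_cff830_lc.AC0.Hyp
import Pool.Agent.Lib.MP_cff830_lc.AC0.BadProb
import Pool.Agent.Lib.MP_cff830_lc.AC0.Tree
import Pool.Agent.Lib.MP_cff830_lc.AC0.Switch
import Pool.Agent.Lib.MP_cff830_lc.AC0.Ext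
import Pool.Agent.Lib.MP_cff830_lc.AC0.Zero
import Pool.Agent.Lib.MP_cff830_lc.AC0.Step
import Pool.Agent.Lib.MP_cff830_lc.AC0.Hyb
import Pool.Agent.Lib.MP_cff830_lc.AC0.Lift
import Pool.Agent.Lib.MP_cff830_lc.AC0.U1
import Pool.Agent.Lib.MP_cff830_lc.AC0.U2

/-!
# Vertex cover and constant-depth circuits: the threshold is exactly 2

Below the ratio 2, circuits of constant depth and polynomial size do not approximate vertex cover,
even on graphs of bounded degree and large girth. Above the ratio 2, on graphs of bounded degree,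
depth 2 and polynomial size suffice.
-/

namespace Pool.Agent.Results.MP_cff830_lc.ConstantDepth

open Pool.Agent.Lib.MP_cff830_lc.AC0

theorem result :
    (∀ c : ℝ, c < 2 → ∃ Δ : ℕ, ∀ d k g : ℕ, ∃ n₀ : ℕ, ∀ n ≥ n₀, ∀ s ≤ n ^ k,
      ∀ F : Fin s → SimpleGraph (Fin n) → Prop, IsCircuit n s d F →
      ∀ a : Fin s → ℝ, (∀ i, 0 ≤ a i) → ∃ G : SimpleGraph (Fin n),
        (∀ v, cnt (fun w => G.Adj v w) ≤ Δ) ∧
        (∀ v (p : G.Walk v v), p.IsCycle → g < p.length) ∧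
        ¬ ((vc G : ℝ) ≤ ∑ i, a i * ind (F i G) ∧ ∑ i, a i * ind (F i G) ≤ c * (vc G : ℝ))) ∧
    (∀ c : ℝ, 2 < c → ∀ Δ : ℕ, ∃ k : ℕ, ∀ n ≥ 2, ∃ s ≤ n ^ k,
      ∃ F : Fin s → SimpleGraph (Fin n) → Prop, IsCircuit n s 2 F ∧
      ∃ o : Fin n → Fin s, ∀ G : SimpleGraph (Fin n), (∀ v, cnt (fun w => G.Adj v w) ≤ Δ) →
        ∃ C : Finset (Fin n), IsVC G C ∧ (∀ v, v ∈ C ↔ F (o v) G) ∧
          (C.card : ℝ) ≤ c * (vc G : ℝ)) := by
  have h4 := stCount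
  have h2 := stRep
  have hA : StA := stA h2 h4 stH
  have hSw : StSwitch := stSwitch hA stB
  have hZ : StZero := stZero (stExt h2 h4) (stGauge stTwo)
  have hCl : ∀ d, Claim d := claimAll hZ (stStep hSw)
  exact ⟨stMain stBase (stHyb hCl) stLift, stUpper stU1 stU2⟩

end Pool.Agent.Results.MP_cff830_lc.ConstantDepth
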