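import Pool.Agent.Lib.MP_cff830_lc.AC0.Base
import Pool.Agent.Lib.MP_cff830_lc.Deg.Perm
import Pool.Agent.Lib.MP_cff830_lc.Deg.Leaf
import Pool.Agent.Lib.MP_cff830_lc.Deg.Sym
import Pool.Agent.Lib.MP_cff830_lc.Deg.Copy
import Pool.Agent.Lib.MP_cff830_lc.Deg.Exp
import Pool.Agent.Lib.MP_cff830_lc.Deg.An
import Pool.Agent.Lib.MP_cff830_lc.Deg.W
import Pool.Agent.Lib.MP_cff830_lc.Deg.Union
import Pool.Agent.Lib.MP_cff830_lc.Deg.Graph
import Pool.Agent.Lib.MP_cff830_lc.Deg.Lower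
import Pool.Agent.Lib.MP_cff830_lc.Deg.UpW

/-!
# Vertex cover and low-degree polynomials: the threshold is exactly 2

Below the ratio 2, real polynomials of degree less than `κ n^(1/4) / log n` in the bits of the
adjacency lists do not approximate vertex cover, even with unit weights, an additive error `ε n`,
bounded degree and large girth. Above the ratio 2, on graphs of bounded degree and for all
weights, polynomials of bounded degree in the adjacency bits suffice.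
-/

namespace Pool.Agent.Results.MP_cff830_lc.DegreeThreshold

open Pool.Agent.Lib.MP_cff830_lc.AC0 Pool.Agent.Lib.MP_cff830_lc.Deg

theorem result :
    (∀ c : ℝ, c < 2 → ∃ (D : ℕ) (ε : ℝ), 0 < ε ∧ ∀ g : ℕ, ∃ (κ : ℝ) (n₀ : ℕ), 0 < κ ∧
      ∀ n ≥ n₀, ∀ P : MvPolynomial (Fin n × Fin D × Fin n) ℝ,
      (∀ (G : SimpleGraph (Fin n)) (L : Fin n → Fin D → Option (Fin n)), IsList G L →
        (∀ v (p : G.Walk v v), p.IsCycle → g < p.length) →
        opt G (fun _ => 1) - ε * n ≤ MvPolynomial.eval (lbit L) P ∧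
        MvPolynomial.eval (lbit L) P ≤ c * opt G (fun _ => 1) + ε * n) →
      κ * (n : ℝ) ^ (1 / 4 : ℝ) / Real.log n ≤ P.totalDegree) ∧
    (∀ c : ℝ, 2 < c → ∀ D : ℕ, ∃ K : ℕ, ∀ (n : ℕ) (w : Fin n → ℝ), (∀ v, 0 ≤ w v) →
      ∃ P : MvPolynomial (Fin n × Fin n) ℝ, P.totalDegree ≤ K ∧
      ∀ G : SimpleGraph (Fin n), (∀ v, cnt (fun u => G.Adj v u) ≤ D) →
        opt G w ≤ MvPolynomial.eval (abit G) P ∧
        MvPolynomial.eval (abit G) P ≤ c * opt G w) := by
  refine ⟨?_, upper_weighted⟩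
  have h1 : StLower := stLower stBase (stUnion stW stDis) stGraph
    (stInd stLeaf (stSym stPerm) (stExp (stCopy stPerm)) stAn)
  intro c hc
  obtain ⟨D, ε, hε, h⟩ := h1 c hc
  refine ⟨D, ε, hε, fun g => ?_⟩
  obtain ⟨κ, n₀, hκ, hn⟩ := h g
  refine ⟨κ, n₀, hκ, fun n hnn P hP => hn n hnn P fun G L hL hg => ?_⟩
  have := hP G L hL hg
  rwa [opt_one] at this

end Pool.Agent.Results.MP_cff830_lc.DegreeThreshold
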