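import Mathlib
import Pool.Agent.Lib.MP_cff830_lc.Local
import Pool.Agent.Lib.MP_cff830_lc.Pull
import Pool.Agent.Lib.MP_cff830_lc.Sparse
import Pool.Agent.Lib.MP_cff830_lc.SDP.Lev.FinalL
import Pool.Agent.Lib.FracGS.Dual

/-!
# When do relaxations of weighted vertex cover beat the ratio two?

For a class of finite graphs closed under induced subgraphs, some linear programme with constraints
on boundedly many vertices approximates the minimum weight of a vertex cover within a constant
factor below `2` if and only if the graphs of the class without short odd cycles have bounded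
fractional chromatic number.  If the class is given by finitely many forbidden induced subgraphs
and one of them is a forest, then the edge and triangle constraints suffice; otherwise no constant
level of the Sherali-Adams SDP hierarchy suffices, not even for unit weights.
-/

set_option autoImplicit false
set_option linter.unusedSectionVars false

namespace Pool.Agent.Results.MP_cff830_lc.HierarchyDichotomy

open Pool.Agent.Lib.MP_cff830_lc

/-- The minimum weight of a vertex cover of `G`, for real weights `w`. -/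
noncomputable def minCover {V : Type} (G : SimpleGraph V) (w : V → ℝ) : ℝ :=
  sInf {m | ∃ C : Finset V, IsVertexCover G C ∧ m = ∑ v ∈ C, w v}

/-- The `0/1` vectors of the vertex covers of `G`. -/
def coverVectors {V : Type} (G : SimpleGraph V) : Set (V → ℝ) :=
  {y | (∀ v, y v = 0 ∨ y v = 1) ∧ ∀ u v, G.Adj u v → y u = 1 ∨ y v = 1}

/-- Feasible points of `LP_k`: `x ≥ 0`, and for every set `S` of at most `k` vertices the
restriction of `x` to `S` is a convex combination of vertex covers of the graph induced on `S`; so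
`x` satisfies all inequalities on at most `k` coordinates that are valid for these covers. -/
def LocallyFeasible {V : Type} (G : SimpleGraph V) (k : ℕ) (x : V → ℝ) : Prop :=
  (∀ v, 0 ≤ x v) ∧ ∀ S : Set V, S.ncard ≤ k →
    (fun v : S => x v) ∈ convexHull ℝ (coverVectors (G.induce S))

/-- The value of `LP_k`: minimise `∑ v, w v * x v` over its feasible points. -/
noncomputable def localLP {V : Type} [Fintype V] (G : SimpleGraph V) (k : ℕ) (w : V → ℝ) : ℝ :=
  sInf {m | ∃ x : V → ℝ, LocallyFeasible G k x ∧ m = ∑ v, w v * x v}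

/-- The matrix of the moments of order at most two. Rows and columns are indexed by the empty set
(`none`) and the vertices; the entry of two vertices `x` and `y` is the probability
`μ {x, y} {x, y}` that both are in the cover, the entry of `none` and `x` is `μ {x} {x}`, and the
entry of `none` and `none` is `μ ∅ ∅`, which is `1`. -/
def momentMatrix {V : Type} [DecidableEq V] (μ : Finset V → Finset V → ℝ) :
    Matrix (Option V) (Option V) ℝ :=
  fun a b => μ (a.toFinset ∪ b.toFinset) (a.toFinset ∪ b.toFinset)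

/-- Solutions of level `k` of the Sherali-Adams SDP relaxation of vertex cover. For a set `S` of at
most `k` vertices `μ S` is a probability distribution on the subsets of `S`, supported on the sets
`U` that cover every edge with both ends in `S`; for `S ⊆ T` the distribution `μ S` is the marginal
of `μ T`; the matrix of the moments of order at most two is positive semidefinite. -/
structure IsSolution {V : Type} [Fintype V] [DecidableEq V] (G : SimpleGraph V) (k : ℕ)
    (μ : Finset V → Finset V → ℝ) : Prop where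
  nonneg : ∀ S U, 0 ≤ μ S U
  total : ∀ S, S.card ≤ k → ∑ U ∈ S.powerset, μ S U = 1
  consistent : ∀ S T, S ⊆ T → T.card ≤ k → ∀ U, U ⊆ S →
    μ S U = ∑ W ∈ T.powerset with W ∩ S = U, μ T W
  cover : ∀ S, S.card ≤ k → ∀ U, U ⊆ S → μ S U ≠ 0 → ∀ x ∈ S, ∀ y ∈ S, G.Adj x y →
    x ∈ U ∨ y ∈ U
  psd : (momentMatrix μ).PosSemidef

open Classical in
/-- The value of level `k` of the Sherali-Adams SDP hierarchy: minimise the expected weight
`∑ v, w v * μ {v} {v}` over the solutions `μ`. -/
noncomputable def sdpValue {V : Type} [Fintype V] (G : SimpleGraph V) (k : ℕ) (w : V → ℝ) : ℝ :=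
  sInf {m | ∃ μ : Finset V → Finset V → ℝ, IsSolution G k μ ∧ m = ∑ v, w v * μ {v} {v}}

/-- The value of the linear programme with the edge and triangle constraints. -/
noncomputable def triangleLP {V : Type} [Fintype V] (G : SimpleGraph V) (w : V → ℝ) : ℝ :=
  sInf {m | ∃ x : V → ℝ, ((∀ v, 0 ≤ x v) ∧ (∀ a b, G.Adj a b → 1 ≤ x a + x b) ∧
    ∀ a b c, G.Adj a b → G.Adj b c → G.Adj a c → 2 ≤ x a + x b + x c) ∧ m = ∑ v, w v * x v}

open Classical in
/-- `c` is a fractional colouring of `G`: nonnegative weights on the stable sets of `G` such that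
every vertex lies in stable sets of total weight at least one. -/
def IsFractionalColouring {V : Type} [Fintype V] (G : SimpleGraph V) (c : Finset V → ℝ) : Prop :=
  (∀ S, 0 ≤ c S) ∧ (∀ S, c S ≠ 0 → ∀ u ∈ S, ∀ v ∈ S, ¬ G.Adj u v) ∧
    ∀ v, 1 ≤ ∑ S ∈ (Finset.univ : Finset (Finset V)).filter (fun S => v ∈ S), c S

/-- The fractional chromatic number: the least total weight of a fractional colouring. -/
noncomputable def fractionalChromaticNumber {V : Type} [Fintype V] (G : SimpleGraph V) : ℝ :=
  sInf {t | ∃ c : Finset V → ℝ, IsFractionalColouring G c ∧ t = ∑ S, c S}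

/-- `P` is closed under isomorphism and induced subgraphs. -/
def Hereditary (P : ∀ V : Type, SimpleGraph V → Prop) : Prop :=
  ∀ (V W : Type) (G : SimpleGraph V) (H : SimpleGraph W),
    Nonempty (SimpleGraph.Embedding H G) → P V G → P W H

/-- Some `LP_k` approximates the minimum weight of a vertex cover within a constant factor below
`2`, for all finite graphs with property `P` and all nonnegative weights. -/
def LocalBeatsTwo (P : ∀ V : Type, SimpleGraph V → Prop) : Prop :=
  ∃ (k : ℕ) (ε : ℝ), 0 < ε ∧ ∀ (V : Type) [Fintype V] (G : SimpleGraph V), P V G →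
    ∀ w : V → ℝ, (∀ v, 0 ≤ w v) → minCover G w ≤ (2 - ε) * localLP G k w

/-- The same for the levels of the Sherali-Adams SDP hierarchy. -/
def SDPBeatsTwo (P : ∀ V : Type, SimpleGraph V → Prop) : Prop :=
  ∃ (k : ℕ) (ε : ℝ), 0 < ε ∧ ∀ (V : Type) [Fintype V] (G : SimpleGraph V), P V G →
    ∀ w : V → ℝ, (∀ v, 0 ≤ w v) → minCover G w ≤ (2 - ε) * sdpValue G k w

/-- The same for the levels of the Sherali-Adams SDP hierarchy and unit weights. -/
def UnitSDPBeatsTwo (P : ∀ V : Type, SimpleGraph V → Prop) : Prop :=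
  ∃ (k : ℕ) (ε : ℝ), 0 < ε ∧ ∀ (V : Type) [Fintype V] (G : SimpleGraph V), P V G →
    minCover G (fun _ => 1) ≤ (2 - ε) * sdpValue G k (fun _ => 1)

/-- The same for the edge-triangle programme and all nonnegative weights. -/
def TriangleBeatsTwo (P : ∀ V : Type, SimpleGraph V → Prop) : Prop :=
  ∃ ε : ℝ, 0 < ε ∧ ∀ (V : Type) [Fintype V] (G : SimpleGraph V), P V G →
    ∀ w : V → ℝ, (∀ v, 0 ≤ w v) → minCover G w ≤ (2 - ε) * triangleLP G w

/-- For some `g` and `K`, every finite graph with property `P` all of whose odd cycles are longer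
than `g` has fractional chromatic number at most `K`. -/
def BoundedFractional (P : ∀ V : Type, SimpleGraph V → Prop) : Prop :=
  ∃ (g : ℕ) (K : ℝ), ∀ (V : Type) [Fintype V] (G : SimpleGraph V), P V G →
    (∀ (v : V) (p : G.Walk v v), p.IsCycle → Odd p.length → g < p.length) →
      fractionalChromaticNumber G ≤ K

section

variable {V : Type} [Fintype V] (G : SimpleGraph V) (k : ℕ) (w : V → ℝ)

theorem bdd_of {Q : (V → ℝ) → Prop} (hQ : ∀ x, Q x → ∀ v, 0 ≤ x v) (hw : ∀ v, 0 ≤ w v) :
    BddBelow {m | ∃ x : V → ℝ, Q x ∧ m = ∑ v, w v * x v} := by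
  refine ⟨0, ?_⟩
  rintro m ⟨x, hx, rfl⟩
  exact Finset.sum_nonneg fun v _ => mul_nonneg (hw v) (hQ x hx v)

theorem bdd_cover (hw : ∀ v, 0 ≤ w v) :
    BddBelow {m | ∃ C : Finset V, IsVertexCover G C ∧ m = ∑ v ∈ C, w v} := by
  refine ⟨0, ?_⟩
  rintro m ⟨C, _, rfl⟩
  exact Finset.sum_nonneg fun v _ => hw v

open Classical in
/-- The indicator of a vertex cover is locally feasible. -/
theorem feasible_cover (C : Finset V) (hC : IsVertexCover G C) :
    LocallyFeasible G k (fun v => if v ∈ C then 1 else 0) := by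
  refine ⟨fun v => ?_, fun S _ => subset_convexHull ℝ _ ⟨fun v => ?_, fun u v huv => ?_⟩⟩
  · show (0 : ℝ) ≤ if v ∈ C then 1 else 0
    split_ifs <;> norm_num
  · show (if v.1 ∈ C then (1 : ℝ) else 0) = 0 ∨ (if v.1 ∈ C then (1 : ℝ) else 0) = 1
    split_ifs <;> simp
  · show (if u.1 ∈ C then (1 : ℝ) else 0) = 1 ∨ (if v.1 ∈ C then (1 : ℝ) else 0) = 1
    rcases hC u.1 v.1 huv with h | h
    · left; rw [if_pos h]
    · right; rw [if_pos h]

/-- The linear programmes are relaxations. -/
theorem local_le_cover (hw : ∀ v, 0 ≤ w v) : localLP G k w ≤ minCover G w := by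
  classical
  refine le_csInf ⟨_, Finset.univ, fun u v _ => Or.inl (Finset.mem_univ u), rfl⟩ ?_
  rintro m ⟨C, hC, rfl⟩
  refine csInf_le (bdd_of w (fun x hx => hx.1) hw) ⟨_, feasible_cover G k C hC, ?_⟩
  simp only [mul_ite, mul_one, mul_zero]
  rw [← Finset.sum_filter]
  refine Finset.sum_congr ?_ fun _ _ => rfl
  ext v
  simp

/-- The odd walk inequalities of a locally feasible point. -/
theorem walk_ineq {x : V → ℝ} (hx : LocallyFeasible G k x) {v : V} (p : G.Walk v v)
    (hp : Odd p.length) (hk : p.length ≤ k) :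
    ((p.length : ℝ) + 1) / 2 ≤ (p.support.tail.map x).sum :=
  Local.walk_of_local G k x hx.2 p hp hk

/-- The edge inequalities of a locally feasible point. -/
theorem edge_ineq {x : V → ℝ} (hk : 2 ≤ k) (hx : LocallyFeasible G k x) {a b : V}
    (hab : G.Adj a b) : 1 ≤ x a + x b := by
  have h1 := hx.2 {a, b} ((Set.ncard_insert_le a {b}).trans (by rw [Set.ncard_singleton]; exact hk))
  have h2 := Local.hull_le (G.induce {a, b})
    [(⟨a, by simp⟩ : ({a, b} : Set V)), ⟨b, by simp⟩] 1 (fun y hy => by
      have h3 := hy.2 ⟨a, by simp⟩ ⟨b, by simp⟩ hab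
      simp only [List.map_cons, List.map_nil, List.sum_cons, List.sum_nil, add_zero]
      rcases h3 with h | h
      · rcases hy.1 ⟨b, by simp⟩ with h' | h' <;> rw [h, h'] <;> norm_num
      · rcases hy.1 ⟨a, by simp⟩ with h' | h' <;> rw [h, h'] <;> norm_num) h1
  simpa using h2

/-- For `k ≥ 3` the value of `LP_k` is at least the value of the edge-triangle programme. -/
theorem triangle_le_local (hk : 3 ≤ k) (hw : ∀ v, 0 ≤ w v) :
    triangleLP G w ≤ localLP G k w := by
  classical
  refine le_csInf ⟨_, _, feasible_cover G k Finset.univ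
    fun u v _ => Or.inl (Finset.mem_univ u), rfl⟩ ?_
  rintro m ⟨x, hx, rfl⟩
  refine csInf_le (bdd_of w (fun x hx => hx.1) hw)
    ⟨x, ⟨hx.1, fun a b hab => edge_ineq G k (by omega) hx hab, ?_⟩, rfl⟩
  intro a b c hab hbc hac
  have h1 := walk_ineq G k hx (SimpleGraph.Walk.cons hab (SimpleGraph.Walk.cons hbc
    (SimpleGraph.Walk.cons hac.symm SimpleGraph.Walk.nil))) (by simp; decide) (by simpa using hk)
  simp only [SimpleGraph.Walk.length_cons, SimpleGraph.Walk.length_nil,
    SimpleGraph.Walk.support_cons, SimpleGraph.Walk.support_nil, List.tail_cons, List.map_cons,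
    List.map_nil, List.sum_cons, List.sum_nil] at h1
  push_cast at h1
  linarith

/-- On a graph without short odd cycles the value of `LP_k` is at most half the total weight. -/
theorem local_le_half (hG : ∀ (v : V) (p : G.Walk v v), p.length ≤ k → Even p.length)
    (hw : ∀ v, 0 ≤ w v) : localLP G k w ≤ (∑ v, w v) / 2 := by
  have hx : LocallyFeasible G k (fun _ => 1 / 2) :=
    ⟨fun v => by norm_num, fun S hS => Local.half_mem _ (Local.local_bip G k hG S hS)⟩
  refine csInf_le (bdd_of w (Q := LocallyFeasible G k) (fun x hx => hx.1) hw) ⟨_, hx, ?_⟩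
  rw [Finset.sum_div]
  exact Finset.sum_congr rfl fun v _ => by ring

/-- The minimum is attained up to any positive error, and its complement is stable. -/
theorem stable_of_cover (c : ℝ) (hc : minCover G w < c) :
    ∃ T : Finset V, (∀ u ∈ T, ∀ v ∈ T, ¬ G.Adj u v) ∧ ∑ v, w v - c < ∑ v ∈ T, w v := by
  classical
  have hne : {m | ∃ C : Finset V, IsVertexCover G C ∧ m = ∑ v ∈ C, w v}.Nonempty :=
    ⟨_, Finset.univ, fun u v _ => Or.inl (Finset.mem_univ u), rfl⟩
  obtain ⟨m, ⟨C, hC, rfl⟩, hm⟩ := exists_lt_of_csInf_lt hne hc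
  refine ⟨Cᶜ, ?_, ?_⟩
  · intro u hu v hv huv
    rcases hC u v huv with h | h
    · exact (Finset.mem_compl.1 hu) h
    · exact (Finset.mem_compl.1 hv) h
  · have h1 := Finset.sum_add_sum_compl C w
    linarith

/-- From stable sets to the fractional chromatic number. -/
theorem frac_le (K : ℝ) (hK : 0 < K) (h : ∀ μ : V → ℝ, (∀ v, 0 ≤ μ v) →
    ∃ T : Finset V, (∀ u ∈ T, ∀ v ∈ T, ¬ G.Adj u v) ∧ ∑ v, μ v ≤ K * ∑ v ∈ T, μ v) :
    fractionalChromaticNumber G ≤ K := by
  obtain ⟨c, h1, h2, h3, h4⟩ := Pool.Agent.Lib.FracGS.exists_fractional G K hK h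
  refine csInf_le ⟨0, ?_⟩ ⟨c, ⟨h1, h2, fun v => h3 v⟩, h4.symm⟩
  rintro t ⟨c, hc, rfl⟩
  exact Finset.sum_nonneg fun S _ => hc.1 S

open Classical in
/-- From the fractional chromatic number to stable sets. -/
theorem stable_of_frac (K : ℝ) (h : fractionalChromaticNumber G ≤ K) (μ : V → ℝ)
    (hμ : ∀ v, 0 ≤ μ v) :
    ∃ T : Finset V, (∀ u ∈ T, ∀ v ∈ T, ¬ G.Adj u v) ∧ ∑ v, μ v ≤ (K + 1) * ∑ v ∈ T, μ v := by
  have hne : {t | ∃ c : Finset V → ℝ, IsFractionalColouring G c ∧ t = ∑ S, c S}.Nonempty := by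
    refine ⟨_, fun S => if ∃ v, S = {v} then 1 else 0, ⟨fun S => ?_, ?_, ?_⟩, rfl⟩
    · show (0 : ℝ) ≤ if ∃ v, S = {v} then 1 else 0
      split_ifs <;> norm_num
    · intro S hS u hu v hv
      have h1 : ∃ v, S = {v} := by
        by_contra hcon
        exact hS (if_neg hcon)
      obtain ⟨z, rfl⟩ := h1
      rw [Finset.mem_singleton] at hu hv
      rw [hu, hv]
      exact G.loopless.irrefl z
    · intro v
      have h1 : ({v} : Finset V) ∈
          (Finset.univ : Finset (Finset V)).filter (fun S => v ∈ S) := by simp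
      refine le_trans ?_ (Finset.single_le_sum (f := fun S : Finset V =>
        if ∃ v, S = {v} then (1 : ℝ) else 0) (fun S _ => ?_) h1)
      · simp
      · show (0 : ℝ) ≤ if ∃ v, S = {v} then 1 else 0
        split_ifs <;> norm_num
  obtain ⟨t, ⟨c, hc, rfl⟩, ht⟩ := exists_lt_of_csInf_lt hne
    (show fractionalChromaticNumber G < K + 1 by linarith)
  exact Local.stable_of_fractional G c hc.1 hc.2.1 (fun v => hc.2.2 v) (K + 1) ht.le μ hμ

end

/-- A constant factor below `2` bounds the fractional chromatic number. -/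
theorem bounded_of_local (P : ∀ V : Type, SimpleGraph V → Prop) :
    LocalBeatsTwo P → BoundedFractional P := by
  classical
  rintro ⟨k, ε, hε, h⟩
  set δ : ℝ := min (ε / 4) (1 / 2) with hδ
  have hδ0 : 0 < δ := lt_min (by positivity) (by norm_num)
  have hδ1 : δ ≤ ε / 4 := min_le_left _ _
  have hδ2 : δ ≤ 1 / 2 := min_le_right _ _
  refine ⟨k, 1 / δ, ?_⟩
  intro V _ G hG hodd
  refine frac_le G _ (by positivity) ?_
  intro μ hμ
  have hM0 : 0 ≤ ∑ v, μ v := Finset.sum_nonneg fun v _ => hμ v
  rcases hM0.eq_or_lt with hM | hM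
  · refine ⟨∅, fun u hu => absurd hu (Finset.notMem_empty u), ?_⟩
    rw [← hM, Finset.sum_empty, mul_zero]
  have h1 := h V G hG μ hμ
  have hev : ∀ (v : V) (p : G.Walk v v), p.length ≤ k → Even p.length := fun v p hp =>
    Local.even_of_odd_girth G k hodd p.length v p rfl hp
  have h2 := local_le_half G k μ hev hμ
  have h3 : 0 ≤ localLP G k μ := by
    refine Real.sInf_nonneg ?_
    rintro m ⟨x, hx, rfl⟩
    exact Finset.sum_nonneg fun v _ => mul_nonneg (hμ v) (hx.1 v)
  have h4 : minCover G μ < (1 - δ) * ∑ v, μ v := by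
    by_cases h5 : 2 ≤ ε
    · have h8 : (2 - ε) * localLP G k μ ≤ 0 :=
        mul_nonpos_of_nonpos_of_nonneg (by linarith) h3
      nlinarith
    · push Not at h5
      nlinarith
  obtain ⟨T, hT1, hT2⟩ := stable_of_cover G μ _ h4
  refine ⟨T, hT1, ?_⟩
  have hT3 : δ * ∑ v, μ v ≤ ∑ v ∈ T, μ v := by linarith
  rw [one_div, inv_mul_eq_div, le_div_iff₀ hδ0]
  linarith

/-- Bounded fractional chromatic numbers give a constant factor below `2`. -/
theorem local_of_bounded (P : ∀ V : Type, SimpleGraph V → Prop) (hP : Hereditary P) :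
    BoundedFractional P → LocalBeatsTwo P := by
  classical
  rintro ⟨g, K, h⟩
  have hheavy : ∀ (V : Type) [Fintype V] (G : SimpleGraph V),
      Pool.Agent.Lib.FracGS.NoOdd G g → P V G → ∀ μ : V → ℝ, (∀ v, 0 ≤ μ v) →
      ∃ T : Finset V, (∀ u ∈ T, ∀ v ∈ T, ¬ G.Adj u v) ∧
        ∑ v, μ v ≤ (max K 0 + 1) * ∑ v ∈ T, μ v := by
    intro V _ G hodd hG μ hμ
    refine stable_of_frac G (max K 0) (le_trans (h V G hG ?_) (le_max_left _ _)) μ hμ
    intro v p _ hp
    by_contra hcon
    push Not at hcon
    exact (Nat.not_even_iff_odd.2 hp) (hodd v p (by omega))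
  obtain ⟨ε, hε0, hε1, hround⟩ := Local.rounding P hP g (max K 0 + 1)
    (by linarith [le_max_right K 0]) hheavy
  refine ⟨2 * g + 2, ε, hε0, ?_⟩
  intro V _ G hG w hw
  have hε : 0 < 2 - ε := by linarith
  have key : minCover G w / (2 - ε) ≤ localLP G (2 * g + 2) w := by
    refine le_csInf ⟨_, _, feasible_cover G (2 * g + 2) Finset.univ
      fun u v _ => Or.inl (Finset.mem_univ u), rfl⟩ ?_
    rintro m ⟨x, hx, rfl⟩
    obtain ⟨C, hC, hCw⟩ := hround V G hG w x hw hx.1
      (fun u v huv => edge_ineq G (2 * g + 2) (by omega) hx huv)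
      (fun v p hp hl => walk_ineq G (2 * g + 2) hx p hp (by omega))
    rw [div_le_iff₀ hε, mul_comm]
    exact (csInf_le (bdd_cover G w hw) ⟨C, hC, rfl⟩).trans hCw
  rw [div_le_iff₀ hε] at key
  linarith

/-- Forbidden forests. -/
theorem triangle_of_forest (P : ∀ V : Type, SimpleGraph V → Prop) (r : ℕ) (n : Fin r → ℕ)
    (F : ∀ i, SimpleGraph (Fin (n i)))
    (hPF : ∀ (V : Type) [Fintype V] (G : SimpleGraph V),
      P V G ↔ ∀ i, IsEmpty (SimpleGraph.Embedding (F i) G)) :
    (∃ i, (F i).IsAcyclic) → TriangleBeatsTwo P := by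
  classical
  rintro ⟨i, hi⟩
  obtain ⟨K, hK, hheavy⟩ := TriGap.heavy_tri (n i) (F i) hi
  obtain ⟨ε, hε0, hε1, hround⟩ := TriGap.rounding 1 K hK (n i) (F i) hheavy
  refine ⟨ε, hε0, ?_⟩
  intro V _ G hG w hw
  have hε : 0 < 2 - ε := by linarith
  have key : minCover G w / (2 - ε) ≤ triangleLP G w := by
    refine le_csInf ⟨_, fun _ => 1, ⟨fun v => zero_le_one, fun a b _ => by norm_num,
      fun a b c _ _ _ => by norm_num⟩, rfl⟩ ?_
    rintro m ⟨x, hx, rfl⟩
    obtain ⟨C, hC, hCw⟩ := hround V G ((hPF V G).1 hG i) w x hw hx.1 hx.2.1 (by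
      intro v p hp hl
      match p, hp, hl with
      | .cons hab .nil, _, _ => exact absurd hab (G.loopless.irrefl _)
      | .cons hab (.cons hbc (.cons hca .nil)), _, _ =>
        have h1 := hx.2.2 _ _ _ hab hbc hca.symm
        simp only [SimpleGraph.Walk.length_cons, SimpleGraph.Walk.length_nil,
          SimpleGraph.Walk.support_cons, SimpleGraph.Walk.support_nil, List.tail_cons,
          List.map_cons, List.map_nil, List.sum_cons, List.sum_nil]
        push_cast
        linarith
      | .nil, hp, _ => exact absurd hp (by simp)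
      | .cons _ (.cons _ .nil), hp, _ =>
        simp only [SimpleGraph.Walk.length_cons, SimpleGraph.Walk.length_nil] at hp
        exact absurd hp (by decide)
      | .cons _ (.cons _ (.cons _ (.cons _ q))), _, hl =>
        simp only [SimpleGraph.Walk.length_cons] at hl
        omega)
    rw [div_le_iff₀ hε, mul_comm]
    exact (csInf_le (bdd_cover G w hw) ⟨C, hC, rfl⟩).trans hCw
  rw [div_le_iff₀ hε] at key
  linarith

/-- The levels of the hierarchy increase. -/
theorem IsSolution.mono {V : Type} [Fintype V] [DecidableEq V] {G : SimpleGraph V} {k l : ℕ}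
    {μ : Finset V → Finset V → ℝ} (h : IsSolution G l μ) (hkl : k ≤ l) : IsSolution G k μ :=
  ⟨h.nonneg, fun S hS => h.total S (hS.trans hkl),
    fun S T hST hT => h.consistent S T hST (hT.trans hkl),
    fun S hS => h.cover S (hS.trans hkl), h.psd⟩

/-- Solutions in the sense of the library. -/
theorem solution_of_sol {V : Type} [Fintype V] [DecidableEq V] {G : SimpleGraph V} {k : ℕ}
    {μ : Finset V → Finset V → ℝ} (h : SDP.IsSol G k μ) : IsSolution G k μ := by
  refine ⟨h.nonneg, h.total, h.consistent, h.cover, ?_⟩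
  have h0 : μ ∅ ∅ = 1 := by
    have := h.total ∅ (by simp)
    simpa using this
  refine Matrix.PosSemidef.of_dotProduct_mulVec_nonneg ?_ fun c => ?_
  · ext a b
    simp [momentMatrix, Finset.union_comm]
  · have := h.psd (c none) fun x => c (some x)
    refine this.trans (le_of_eq ?_)
    simp only [dotProduct, Matrix.mulVec, momentMatrix, Fintype.sum_option, Option.toFinset_none,
      Option.toFinset_some, star_trivial, Finset.mul_sum, Finset.union_empty, Finset.empty_union,
      Pi.star_apply, h0, Finset.sum_add_distrib, mul_add]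
    have e : ∀ x y : V, ({x} ∪ {y} : Finset V) = {x, y} := fun x y => rfl
    simp only [e]
    have e₁ : ∑ x, c none * (μ {x} {x} * c (some x)) = c none * ∑ x, c (some x) * μ {x} {x} := by
      rw [Finset.mul_sum]
      exact Finset.sum_congr rfl fun x _ => by ring
    have e₂ : ∑ x, c (some x) * (μ {x} {x} * c none) = c none * ∑ x, c (some x) * μ {x} {x} := by
      rw [Finset.mul_sum]
      exact Finset.sum_congr rfl fun x _ => by ring
    have e₃ : ∑ x, ∑ y, c (some x) * (μ {x, y} {x, y} * c (some y)) =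
        ∑ x, ∑ y, c (some x) * c (some y) * μ {x, y} {x, y} :=
      Finset.sum_congr rfl fun x _ => Finset.sum_congr rfl fun y _ => by ring
    rw [e₁, e₂, e₃, ← Finset.mul_sum]
    ring

/-- Solutions are pulled back along homomorphisms. -/
theorem IsSolution.pull {V V₀ : Type} [Fintype V] [DecidableEq V] [Fintype V₀] [DecidableEq V₀]
    {G : SimpleGraph V} {G₀ : SimpleGraph V₀} {k : ℕ} {μ : Finset V₀ → Finset V₀ → ℝ}
    (h : IsSolution G₀ k μ) (φ : V → V₀) (hφ : ∀ u v, G.Adj u v → G₀.Adj (φ u) (φ v)) :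
    IsSolution G k (Pull.pull φ μ) := by
  refine ⟨Pull.pull_nonneg φ μ h.nonneg, Pull.pull_total φ μ k h.total,
    fun S T hST hT U _ => Pull.pull_cons φ μ k h.consistent S T hST hT U,
    fun S hS U _ => Pull.pull_cover G G₀ φ hφ μ k h.cover S hS U, ?_⟩
  have h1 : momentMatrix (Pull.pull φ μ) =
      (momentMatrix μ).submatrix (Option.map φ) (Option.map φ) := by
    ext a b
    rw [Matrix.submatrix_apply, momentMatrix, momentMatrix, Pull.pull_self]
    have h2 : (a.toFinset ∪ b.toFinset).image φ =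
        (Option.map φ a).toFinset ∪ (Option.map φ b).toFinset := by
      rw [Finset.image_union]
      cases a <;> cases b <;> simp
    rw [h2]
  rw [h1]
  exact h.psd.submatrix _

section

variable {V : Type} [Fintype V] (G : SimpleGraph V) (k : ℕ) (w : V → ℝ)

open Classical in
/-- Every vertex cover is a solution. -/
theorem solution_cover (C : Finset V) (hC : IsVertexCover G C) :
    IsSolution G k (fun S U => if S ∩ C = U then 1 else 0) := by
  refine ⟨fun S U => by split_ifs <;> norm_num, fun S _ => ?_, fun S T hST _ U _ => ?_,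
    fun S _ U _ hU x hx y hy hxy => ?_, ?_⟩
  · rw [Finset.sum_ite_eq, if_pos (Finset.mem_powerset.2 Finset.inter_subset_left)]
  · rw [Finset.sum_ite_eq]
    have h1 : T ∩ C ∩ S = S ∩ C := by
      rw [Finset.inter_right_comm, Finset.inter_eq_right.2 hST]
    refine if_congr ?_ rfl rfl
    rw [Finset.mem_filter, Finset.mem_powerset, h1]
    exact ⟨fun h => ⟨Finset.inter_subset_left, h⟩, fun h => h.2⟩
  · have h1 : S ∩ C = U := by
      by_contra hcon
      exact hU (if_neg hcon)
    rw [← h1]
    rcases hC x y hxy with h | h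
    · exact Or.inl (Finset.mem_inter.2 ⟨hx, h⟩)
    · exact Or.inr (Finset.mem_inter.2 ⟨hy, h⟩)
  · have h1 : momentMatrix (fun S U : Finset V => if S ∩ C = U then (1 : ℝ) else 0) =
        Matrix.vecMulVec (fun a : Option V => if a.toFinset ⊆ C then (1 : ℝ) else 0)
          (star fun a : Option V => if a.toFinset ⊆ C then (1 : ℝ) else 0) := by
      ext a b
      have e : ((a.toFinset ∪ b.toFinset) ∩ C = a.toFinset ∪ b.toFinset) ↔
          (a.toFinset ⊆ C ∧ b.toFinset ⊆ C) := by
        rw [Finset.inter_eq_left, Finset.union_subset_iff]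
      rw [Matrix.vecMulVec_apply, momentMatrix, Pi.star_apply, star_trivial, if_congr e rfl rfl]
      by_cases ha : a.toFinset ⊆ C <;> by_cases hb : b.toFinset ⊆ C <;> simp [ha, hb]
    rw [h1]
    exact Matrix.posSemidef_vecMulVec_self_star _

/-- The semidefinite programmes are relaxations. -/
theorem sdp_le_cover (hw : ∀ v, 0 ≤ w v) : sdpValue G k w ≤ minCover G w := by
  classical
  refine le_csInf ⟨_, Finset.univ, fun u v _ => Or.inl (Finset.mem_univ u), rfl⟩ ?_
  rintro m ⟨C, hC, rfl⟩
  refine csInf_le ⟨0, ?_⟩ ⟨_, solution_cover G k C hC, ?_⟩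
  · rintro m ⟨μ, hμ, rfl⟩
    exact Finset.sum_nonneg fun v _ => mul_nonneg (hw v) (hμ.nonneg _ _)
  · have h1 : ∀ v, w v * (if {v} ∩ C = {v} then (1 : ℝ) else 0) = if v ∈ C then w v else 0 := by
      intro v
      have e : ({v} ∩ C = {v}) ↔ v ∈ C := by
        rw [Finset.inter_eq_left, Finset.singleton_subset_iff]
      rw [if_congr e rfl rfl, mul_ite, mul_one, mul_zero]
    simp only [h1]
    rw [← Finset.sum_filter]
    refine Finset.sum_congr ?_ fun _ _ => rfl
    ext v
    simp

open Classical in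
/-- The marginals of a solution are locally feasible. -/
theorem feasible_solution {μ : Finset V → Finset V → ℝ} (hμ : IsSolution G k μ) :
    LocallyFeasible G k (fun v => μ {v} {v}) := by
  refine ⟨fun v => hμ.nonneg _ _, fun S hS => ?_⟩
  set S' : Finset V := S.toFinset with hS'
  have hc : S'.card ≤ k := by rwa [hS', ← Set.ncard_eq_toFinset_card']
  have h1 : ∑ U ∈ S'.powerset with μ S' U ≠ 0, μ S' U = 1 := by
    rw [Finset.sum_filter_ne_zero]
    exact hμ.total S' hc
  have h2 : (fun v : S => μ {(v : V)} {(v : V)}) =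
      ∑ U ∈ S'.powerset with μ S' U ≠ 0, μ S' U • (fun v : S => if (v : V) ∈ U then (1 : ℝ) else 0) := by
    ext v
    rw [Finset.sum_apply]
    have hv : ({(v : V)} : Finset V) ⊆ S' := by
      rw [Finset.singleton_subset_iff, hS', Set.mem_toFinset]
      exact v.2
    rw [hμ.consistent {(v : V)} S' hv hc {(v : V)} (Finset.Subset.refl _)]
    rw [Finset.sum_filter, Finset.sum_filter]
    refine Finset.sum_congr rfl fun U _ => ?_
    have e : (U ∩ {(v : V)} = {(v : V)}) ↔ (v : V) ∈ U := by
      rw [Finset.inter_eq_right, Finset.singleton_subset_iff]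
    rw [Pi.smul_apply, smul_eq_mul, if_congr e rfl rfl]
    by_cases h3 : μ S' U = 0 <;> by_cases h4 : (v : V) ∈ U <;> simp [h3, h4]
  rw [h2]
  refine (convex_convexHull ℝ _).sum_mem (fun U _ => hμ.nonneg _ _) h1 fun U hU => ?_
  obtain ⟨hU1, hU2⟩ := Finset.mem_filter.1 hU
  refine subset_convexHull ℝ _ ⟨fun v => ?_, fun u v huv => ?_⟩
  · show (if (v : V) ∈ U then (1 : ℝ) else 0) = 0 ∨ (if (v : V) ∈ U then (1 : ℝ) else 0) = 1
    split_ifs <;> simp
  · show (if (u : V) ∈ U then (1 : ℝ) else 0) = 1 ∨ (if (v : V) ∈ U then (1 : ℝ) else 0) = 1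
    rcases hμ.cover S' hc U (Finset.mem_powerset.1 hU1) hU2 u.1 (by
      rw [hS', Set.mem_toFinset]; exact u.2) v.1 (by rw [hS', Set.mem_toFinset]; exact v.2)
      huv with h | h
    · left; rw [if_pos h]
    · right; rw [if_pos h]

/-- The value of level `k` is at least the value of `LP_k`. -/
theorem local_le_sdp (hw : ∀ v, 0 ≤ w v) : localLP G k w ≤ sdpValue G k w := by
  classical
  refine le_csInf ⟨_, _, solution_cover G k Finset.univ
    fun u v _ => Or.inl (Finset.mem_univ u), rfl⟩ ?_
  rintro m ⟨μ, hμ, rfl⟩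
  exact csInf_le (bdd_of w (fun x hx => hx.1) hw) ⟨_, feasible_solution G k hμ, rfl⟩

end

/-- Forbidden graphs with cycles. -/
theorem gap_of_cycles (P : ∀ V : Type, SimpleGraph V → Prop) (r : ℕ) (n : Fin r → ℕ)
    (F : ∀ i, SimpleGraph (Fin (n i)))
    (hPF : ∀ (V : Type) [Fintype V] (G : SimpleGraph V),
      P V G ↔ ∀ i, IsEmpty (SimpleGraph.Embedding (F i) G))
    (hF : ∀ i, ¬ (F i).IsAcyclic) (k : ℕ) (ε : ℝ) (hε : 0 < ε) :
    ∃ (V : Type) (_ : Fintype V) (G : SimpleGraph V), P V G ∧
      (2 - ε) * sdpValue G k (fun _ => 1) < minCover G (fun _ => 1) := by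
  classical
  have hcyc : ∀ i, ∃ (v : Fin (n i)) (p : (F i).Walk v v), p.IsCycle := by
    intro i
    by_contra hcon
    push Not at hcon
    exact hF i fun v p hp => hcon v p hp
  choose v0 p0 hp0 using hcyc
  -- the graph without sparsity
  set δ : ℝ := min ε 1 / 11 with hδ
  have hδ0 : 0 < δ := by
    rw [hδ]
    have : 0 < min ε 1 := lt_min hε one_pos
    positivity
  have hδ1 : 11 * δ ≤ 1 := by
    rw [hδ]
    have := min_le_right ε 1
    linarith
  have hδε : 11 * δ ≤ ε := by
    rw [hδ]
    have := min_le_left ε 1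
    linarith
  obtain ⟨C, hC⟩ := SDP.finalL δ hδ0
  obtain ⟨V₀, i₁, i₂, G₀, hV₀, -, hcov, μ, hμ, hval⟩ := hC (max k 1) (le_max_right _ _)
  obtain rfl : i₂ = fun a b => Classical.propDecidable (a = b) := Subsingleton.elim _ _
  have hne : Nonempty V₀ := Fintype.card_pos_iff.1 hV₀
  have hn₀ : (0 : ℝ) < Fintype.card V₀ := by exact_mod_cast hV₀
  have hμ' : IsSolution G₀ k μ := (solution_of_sol hμ).mono (le_max_left _ _)
  obtain ⟨q, hq⟩ := exists_nat_gt (1 / δ)
  have hq0 : (0 : ℝ) < q := lt_trans (by positivity) hq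
  have hq1 : 1 ≤ q := by exact_mod_cast Nat.one_le_iff_ne_zero.2 (by
    rintro rfl
    simp at hq0)
  have hqδ : 1 ≤ q * δ := by
    rw [div_lt_iff₀ hδ0] at hq
    exact hq.le
  obtain ⟨M, V, inst, G, φ, hM, hφ, hfib, hmiss, hg, hst⟩ :=
    Sparse.exists_sparse G₀ (∑ i, (p0 i).length) ⌊δ * Fintype.card V₀⌋₊ q hq1 (by
      intro T hT
      refine Nat.le_floor ?_
      have h1 := hcov Tᶜ (by
        intro x y hxy
        by_contra hcon
        push Not at hcon
        rw [Finset.mem_compl, Finset.mem_compl, not_not, not_not] at hcon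
        exact hT x hcon.1 y hcon.2 hxy)
      rw [Finset.card_compl, Nat.cast_sub (Finset.card_le_univ T)] at h1
      linarith)
  have hMR : (1 : ℝ) ≤ M := by exact_mod_cast hM
  set N : ℝ := Fintype.card V₀ * M with hN
  have hN0 : 0 < N := by positivity
  refine ⟨V, inst, G, (hPF V G).2 fun i => ⟨fun e => ?_⟩, ?_⟩
  · have h1 : ((p0 i).map e.toHom).IsCycle :=
      (SimpleGraph.Walk.isCycle_map_iff_of_injective e.injective).2 (hp0 i)
    have h2 := hg _ _ h1
    rw [SimpleGraph.Walk.length_map] at h2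
    have h3 : (p0 i).length ≤ ∑ i, (p0 i).length :=
      Finset.single_le_sum (f := fun i => (p0 i).length) (fun i _ => Nat.zero_le _)
        (Finset.mem_univ i)
    exact absurd h3 (not_le.2 h2)
  · -- the value of the semidefinite programme
    have h1 : sdpValue G k (fun _ => 1) ≤ (1 / 2 + δ) * N := by
      have h2 : ∑ v, (1 : ℝ) * Pull.pull φ μ {v} {v} ≤ (1 / 2 + δ) * N := by
        have h3 : ∀ v, (1 : ℝ) * Pull.pull φ μ {v} {v} = μ {φ v} {φ v} := by
          intro v
          rw [one_mul, Pull.pull_self, Finset.image_singleton]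
        simp only [h3]
        refine (Pull.sum_pull φ (fun x => μ {x} {x}) (fun x => hμ.nonneg _ _) M hfib).trans ?_
        calc (M : ℝ) * ∑ x, μ {x} {x} ≤ M * ((1 / 2 + δ) * Fintype.card V₀) :=
              mul_le_mul_of_nonneg_left hval (by linarith)
          _ = (1 / 2 + δ) * N := by rw [hN]; ring
      refine le_trans (csInf_le ⟨0, ?_⟩ ⟨_, hμ'.pull φ hφ, rfl⟩) h2
      rintro m ⟨ν, hν, rfl⟩
      exact Finset.sum_nonneg fun v _ => mul_nonneg zero_le_one (hν.nonneg _ _)
    have h0 : 0 ≤ sdpValue G k (fun _ => 1) := by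
      refine Real.sInf_nonneg ?_
      rintro m ⟨ν, hν, rfl⟩
      exact Finset.sum_nonneg fun v _ => mul_nonneg zero_le_one (hν.nonneg _ _)
    -- the minimum vertex cover
    have h4 : (1 - δ) * N ≤ Fintype.card V := by
      have h5 : (q : ℝ) * N ≤ q * Fintype.card V + N := by
        rw [hN]
        exact_mod_cast hmiss
      nlinarith
    have h2 : (1 - 3 * δ) * N ≤ minCover G (fun _ => 1) := by
      refine le_csInf ⟨_, Finset.univ, fun u v _ => Or.inl (Finset.mem_univ u), rfl⟩ ?_
      rintro m ⟨C, hC, rfl⟩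
      have h3 := hst Cᶜ (by
        intro u hu v hv huv
        rcases hC u v huv with h | h
        · exact (Finset.mem_compl.1 hu) h
        · exact (Finset.mem_compl.1 hv) h)
      have h5 : (q : ℝ) * ((Cᶜ).card : ℝ) ≤
          (q * ⌊δ * Fintype.card V₀⌋₊ + Fintype.card V₀) * M := by exact_mod_cast h3
      have h6 : (⌊δ * Fintype.card V₀⌋₊ : ℝ) ≤ δ * Fintype.card V₀ :=
        Nat.floor_le (by positivity)
      have h7 : (q : ℝ) * ((Cᶜ).card : ℝ) ≤ q * (2 * δ * N) := by
        calc (q : ℝ) * ((Cᶜ).card : ℝ) ≤ (q * ⌊δ * Fintype.card V₀⌋₊ + Fintype.card V₀) * M := h5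
          _ ≤ (q * (δ * Fintype.card V₀) + (q * δ) * Fintype.card V₀) * M := by
              refine mul_le_mul_of_nonneg_right (add_le_add ?_ ?_) (by linarith)
              · exact mul_le_mul_of_nonneg_left h6 hq0.le
              · exact le_mul_of_one_le_left hn₀.le hqδ
          _ = q * (2 * δ * N) := by rw [hN]; ring
      have h8 : ((Cᶜ).card : ℝ) ≤ 2 * δ * N := le_of_mul_le_mul_left h7 hq0
      have h9 : ((Cᶜ).card : ℝ) = Fintype.card V - C.card := by
        rw [Finset.card_compl, Nat.cast_sub (Finset.card_le_univ C)]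
      rw [Finset.sum_const, nsmul_eq_mul, mul_one]
      linarith
    refine lt_of_lt_of_le ?_ h2
    calc (2 - ε) * sdpValue G k (fun _ => 1) ≤ (2 - 11 * δ) * sdpValue G k (fun _ => 1) :=
          mul_le_mul_of_nonneg_right (by linarith) h0
      _ ≤ (2 - 11 * δ) * ((1 / 2 + δ) * N) := mul_le_mul_of_nonneg_left h1 (by linarith)
      _ < (1 - 3 * δ) * N := by
          have h10 : (2 - 11 * δ) * (1 / 2 + δ) < 1 - 3 * δ := by nlinarith
          calc (2 - 11 * δ) * ((1 / 2 + δ) * N) = (2 - 11 * δ) * (1 / 2 + δ) * N := by ring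
            _ < (1 - 3 * δ) * N := mul_lt_mul_of_pos_right h10 hN0

/-- The programmes are relaxations of vertex cover.  Let `P` be a class of finite graphs
closed under induced subgraphs.  Some `LP_k` approximates the minimum weight of a vertex cover on
`P` within a constant factor below `2` if and only if the graphs of `P` without short odd cycles
have bounded fractional chromatic number.  If `P` is given by finitely many forbidden induced
subgraphs, then this is equivalent to the same for the edge-triangle programme, to the same for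
some constant level of the Sherali-Adams SDP hierarchy, with all weights or with unit weights, and
to one of the forbidden graphs being a forest. -/
theorem result :
    (∀ (V : Type) [Fintype V] (G : SimpleGraph V) (k : ℕ) (w : V → ℝ), (∀ v, 0 ≤ w v) →
      localLP G k w ≤ sdpValue G k w ∧ sdpValue G k w ≤ minCover G w ∧
      (3 ≤ k → triangleLP G w ≤ localLP G k w)) ∧
    ∀ P : ∀ V : Type, SimpleGraph V → Prop, Hereditary P →
      (LocalBeatsTwo P ↔ BoundedFractional P) ∧
      ∀ (r : ℕ) (n : Fin r → ℕ) (F : ∀ i, SimpleGraph (Fin (n i))),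
        (∀ (V : Type) [Fintype V] (G : SimpleGraph V),
          P V G ↔ ∀ i, IsEmpty (SimpleGraph.Embedding (F i) G)) →
        [∃ i, (F i).IsAcyclic, BoundedFractional P, TriangleBeatsTwo P, LocalBeatsTwo P,
          SDPBeatsTwo P, UnitSDPBeatsTwo P].TFAE := by
  refine ⟨fun V _ G k w hw => ⟨local_le_sdp G k w hw, sdp_le_cover G k w hw,
    fun hk => triangle_le_local G k w hk hw⟩,
    fun P hP => ⟨⟨bounded_of_local P, local_of_bounded P hP⟩, fun r n F hPF => ?_⟩⟩
  have hmin : ∀ (V : Type) [Fintype V] (G : SimpleGraph V) (k : ℕ) (ε : ℝ) (w : V → ℝ),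
      (∀ v, 0 ≤ w v) → minCover G w ≤ (2 - ε) * localLP G k w →
      minCover G w ≤ (2 - min ε 1) * sdpValue G k w := by
    intro V _ G k ε w hw h
    have h0 : 0 ≤ localLP G k w := by
      refine Real.sInf_nonneg ?_
      rintro m ⟨x, hx, rfl⟩
      exact Finset.sum_nonneg fun v _ => mul_nonneg (hw v) (hx.1 v)
    have h1 : min ε 1 ≤ ε := min_le_left _ _
    have h2 : min ε 1 ≤ 1 := min_le_right _ _
    have h3 := local_le_sdp G k w hw
    nlinarith
  tfae_have 1 → 3 := triangle_of_forest P r n F hPF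
  tfae_have 3 → 4 := by
    rintro ⟨ε, hε, h⟩
    refine ⟨3, min ε 1, by positivity, fun V _ G hG w hw => ?_⟩
    have h1 := h V G hG w hw
    have h2 := triangle_le_local G 3 w le_rfl hw
    have h3 : 0 ≤ triangleLP G w := by
      refine Real.sInf_nonneg ?_
      rintro m ⟨x, hx, rfl⟩
      exact Finset.sum_nonneg fun v _ => mul_nonneg (hw v) (hx.1 v)
    have h4 : min ε 1 ≤ ε := min_le_left _ _
    have h5 : min ε 1 ≤ 1 := min_le_right _ _
    nlinarith
  tfae_have 4 → 5 := by
    rintro ⟨k, ε, hε, h⟩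
    exact ⟨k, min ε 1, by positivity, fun V _ G hG w hw =>
      hmin V G k ε w hw (h V G hG w hw)⟩
  tfae_have 5 → 6 := by
    rintro ⟨k, ε, hε, h⟩
    exact ⟨k, ε, hε, fun V _ G hG => h V G hG _ fun _ => zero_le_one⟩
  tfae_have 6 → 1 := by
    rintro ⟨k, ε, hε, h⟩
    by_contra hcon
    push Not at hcon
    obtain ⟨V, inst, G, hG, hlt⟩ := gap_of_cycles P r n F hPF hcon k ε hε
    exact absurd (h V G hG) (not_le.2 hlt)
  tfae_have 2 → 4 := local_of_bounded P hP
  tfae_have 4 → 2 := bounded_of_local P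
  tfae_finish

end Pool.Agent.Results.MP_cff830_lc.HierarchyDichotomy
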