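import Pool.Agent.Lib.MP_cff830_lc.ZR.All

/-!
# Circuits over LP and SDP relaxations do not approximate vertex cover within `2 - ε`

The inputs of the circuits are the values of relaxations of weighted vertex cover (Sherali-Adams SDP
up to level `c √(log n)`, local linear programmes up to a linear level) and nondecreasing functions
of the subgraphs induced on at most `n ^ (1 / 3)` vertices; the gates are arbitrary nondecreasing
functions of up to `n ^ (1 / 6)` real numbers; the circuits may be randomised, and they may have up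
to `log₂ n - O(log log n)` NOT gates.
-/

set_option autoImplicit false

namespace Pool.Agent.Results.MP_cff830_lc.RelaxationCircuits

open Pool.Agent.Lib.MP_cff830_lc.MR Pool.Agent.Lib.MP_cff830_lc.ZR

/-- First part: every admissible relaxation `R` has `R ≤ τ ≤ 2 * R`, `τ` the minimum weight of a
vertex cover; the values of the levels `3, ..., k` of the Sherali-Adams SDP hierarchy and of the
levels `3, ..., l` of the local LP hierarchy are admissible; one gate computes a function between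
`τ` and `2 * τ`.

Second part: a randomised monotone real circuit with gates of fan-in `d ≤ n ^ (1 / 6)` over such
inputs whose output is between `τ` and `(2 - ε) * τ` with probability at least `1 / 2 + ε` for every
graph on `n` vertices (unit weights), or only larger for `G` than for `G'` with probability at least
`ε` whenever `(1 - ε) * n ≤ τ G` and `τ G' ≤ (1 / 2 + ε) * n`, has at least `2 ^ (n ^ (1 / 30))`
gates, if `l * 2 ^ (C * k ^ 2) ≤ n`.

Third part: the same for randomised circuits with NOT gates over the values of the relaxations, for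
certain weights `w`; `m` is the number of the vectors of the outputs of the NOT gates (`2 ^ T` for
`T` NOT gates), and the bound is `2 ^ (q ^ (1 / 30))` with `q` about `n / m`. -/
theorem result :
    (∀ (n k l : ℕ) (w : Fin n → ℝ), (∀ v, 0 ≤ w v) →
      (∀ R : SimpleGraph (Fin n) → ℝ, IsBound k l w R →
        ∀ G, R G ≤ minCover G w ∧ minCover G w ≤ 2 * R G) ∧
      (∀ j, 3 ≤ j → (j ≤ k → IsBound k l w fun G => sdpValue G j w) ∧
        (j ≤ l → IsBound k l w fun G => localLP G j w)) ∧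
      ∃ F : Fin 1 → SimpleGraph (Fin n) → ℝ, IsMono (IsInput k l) 1 F ∧
        ∀ G, minCover G w ≤ F 0 G ∧ F 0 G ≤ 2 * minCover G w) ∧
    (∀ ε : ℝ, 0 < ε → ∃ C : ℕ, ∀ k l d n : ℕ, 2 ≤ k → 1 ≤ l → l * 2 ^ (C * k ^ 2) ≤ n → 1 ≤ d →
      d ^ 6 ≤ n →
      ∀ (ι : Type) [Fintype ι] (p : ι → ℝ) (s : ℕ) (F : ι → Fin s → SimpleGraph (Fin n) → ℝ)
        (o : ι → Fin s), IsDist p → (∀ i, IsMono (IsInput k l) d (F i)) →
        ((∀ G, 1 / 2 + ε ≤ prob p fun i => minCover G (fun _ => 1) ≤ F i (o i) G ∧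
            F i (o i) G ≤ (2 - ε) * minCover G fun _ => 1) ∨
          ∀ G G', (1 - ε) * (n : ℝ) ≤ minCover G (fun _ => 1) →
            minCover G' (fun _ => 1) ≤ (1 / 2 + ε) * (n : ℝ) →
              ε ≤ prob p fun i => F i (o i) G' < F i (o i) G) →
          (2 : ℝ) ^ ((n : ℝ) ^ (1 / 30 : ℝ)) ≤ (s : ℝ)) ∧
    ∀ ε : ℝ, 0 < ε → ∃ C : ℕ, ∀ k l d m q n : ℕ, 2 ≤ k → 1 ≤ l → 1 ≤ m →
      l * 2 ^ (C * k ^ 2) ≤ q → 1 ≤ d → d ^ 6 ≤ q → C * m * q ≤ n →
      ∃ w : Fin n → ℕ, (∀ v, 1 ≤ w v ∧ w v ≤ C ^ m) ∧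
        ∀ (ι : Type) [Fintype ι] (p : ι → ℝ) (s : ℕ) (N : ι → Finset (Fin s))
          (F : ι → Fin s → SimpleGraph (Fin n) → ℝ) (o : ι → Fin s), IsDist p →
          (∀ i, IsNot (IsValue k l q) d m (N i) (F i)) →
          (∀ G, 1 / 2 + ε ≤ prob p fun i => minCover G (fun v => (w v : ℝ)) ≤ F i (o i) G ∧
            F i (o i) G ≤ (2 - ε) * minCover G fun v => (w v : ℝ)) →
            (2 : ℝ) ^ ((q : ℝ) ^ (1 / 30 : ℝ)) ≤ (s : ℝ) := by
  refine ⟨fun n k l w hw => ?_, stRand avg, stNot avg⟩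
  have hrel : ∀ R : SimpleGraph (Fin n) → ℝ, IsBound k l w R →
      ∀ G, R G ≤ minCover G w ∧ minCover G w ≤ 2 * R G := by
    intro R hR G
    obtain ⟨h1, h2, h3, h4, -, -, -, -, h5, -, -, h6, -⟩ := stRel n G w hw
    rcases hR with hR | hR
    · rw [hR G]
      exact ⟨h4, h3⟩
    · obtain ⟨h7, h8⟩ := hR G
      exact ⟨h8.trans (max_le (h5 k) ((h6 l).trans (h5 l))), by linarith⟩
  refine ⟨hrel, fun j hj => ⟨fun h => bound_sdp k l j w hw hj h, fun h =>
    bound_local k l j w hw hj h⟩, fun _ G => 2 * edgeLP G w, fun i => ⟨fun x => 2 * x 0,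
    fun _ G => edgeLP G w, fun x y h => mul_le_mul_of_nonneg_left (h 0) (by norm_num),
    fun _ => Or.inl (Or.inl ⟨w, hw, Or.inl fun _ => rfl⟩), rfl⟩, fun G => ?_⟩
  obtain ⟨h4, h5⟩ := hrel (fun G => edgeLP G w) (Or.inl fun _ => rfl) G
  exact ⟨h5, mul_le_mul_of_nonneg_left h4 (by norm_num)⟩

end Pool.Agent.Results.MP_cff830_lc.RelaxationCircuits
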